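import Pool.Agent.U745.SC.Norm
import Pool.Agent.Q193.Zeta.Dir

/-!
# Zeta functions of schemes in terms of the numbers of points over finite fields
-/

set_option autoImplicit false

namespace Pool.Agent.U745.SC

open CategoryTheory AlgebraicGeometry Pool.Agent.Q193.Zeta

/-- the number of the points of `X` with coordinates in the field with `p ^ (j + 1)` elements -/
noncomputable def points (X : Scheme.{0}) (i : Nat.Primes × ℕ) : ℕ :=
  haveI : Fact (i.1 : ℕ).Prime := ⟨i.1.2⟩
  Nat.card (Spec (CommRingCat.of (GaloisField i.1 (i.2 + 1))) ⟶ X)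

/-- the logarithm of `p ^ (j + 1)` -/
noncomputable def zlam (i : Nat.Primes × ℕ) : ℝ := (i.2 + 1) * Real.log (i.1 : ℕ)

/-- the coefficients of `log ζ` -/
noncomputable def zco (X : Scheme.{0}) (i : Nat.Primes × ℕ) : ℂ := points X i / (i.2 + 1)

/-- the prime power -/
def pp (i : Nat.Primes × ℕ) : ℕ := (i.1 : ℕ) ^ (i.2 + 1)

lemma pp_injective : Function.Injective pp := by
  intro a b h
  have h1 : Nat.Primes.prodNatEquiv a = Nat.Primes.prodNatEquiv b := by
    apply Subtype.ext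
    obtain ⟨p, k⟩ := a
    obtain ⟨q, l⟩ := b
    rw [Nat.Primes.prodNatEquiv_apply, Nat.Primes.prodNatEquiv_apply]
    exact h
  exact Nat.Primes.prodNatEquiv.injective h1

lemma pp_pos (i : Nat.Primes × ℕ) : 0 < pp i := pow_pos i.1.2.pos _

lemma zlam_nonneg (i : Nat.Primes × ℕ) : 0 ≤ zlam i := by
  unfold zlam
  have : 0 ≤ Real.log (i.1 : ℕ) := Real.log_nonneg (by exact_mod_cast i.1.2.one_lt.le)
  positivity

lemma zlam_eq (i : Nat.Primes × ℕ) : zlam i = Real.log (pp i) := by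
  unfold zlam pp
  push_cast
  rw [Real.log_pow]
  push_cast
  rfl

lemma exp_zlam (i : Nat.Primes × ℕ) (s : ℂ) :
    Complex.exp (-(zlam i * s)) = (pp i : ℂ) ^ (-s) := by
  have h0 := pp_pos i
  have hc : ((pp i : ℕ) : ℂ) ≠ 0 := by exact_mod_cast h0.ne'
  rw [Complex.cpow_def_of_ne_zero hc, zlam_eq, ← Complex.natCast_log]
  congr 1
  ring

variable {X : Scheme.{0}} {C k : ℕ}

lemma zco_eq (hb : Bounded X C k) (i : Nat.Primes × ℕ) : zco X i = (cf (nm X) (pp i) : ℂ) := by
  have : Fact (i.1 : ℕ).Prime := ⟨i.1.2⟩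
  have hK : Nat.card (GaloisField i.1 (i.2 + 1)) = (i.1 : ℕ) ^ (i.2 + 1) :=
    GaloisField.card _ _ (Nat.succ_ne_zero _)
  have : Finite (GaloisField i.1 (i.2 + 1)) := inferInstance
  have h1 := (hb (GaloisField i.1 (i.2 + 1))).1
  have h2 := card_pt X (GaloisField i.1 (i.2 + 1)) i.1.2 hK
  have h3 : points X i = Nat.card (Pt X (GaloisField i.1 (i.2 + 1))) :=
    Nat.card_congr (Scheme.SpecToEquivOfField _ X)
  unfold zco
  rw [h3]
  have h4 : ((i.2 : ℂ) + 1) ≠ 0 := by exact_mod_cast Nat.succ_ne_zero i.2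
  rw [div_eq_iff h4]
  have h5 := congrArg (fun x : ℝ => (x : ℂ)) h2
  simp only [Complex.ofReal_mul, Complex.ofReal_natCast, hK] at h5
  rw [← h5]
  push_cast
  unfold pp
  ring

lemma term_eq (hb : Bounded X C k) (s : ℂ) (i : Nat.Primes × ℕ) :
    LSeries.term (fun m => (cf (nm X) m : ℂ)) s (pp i) =
      zco X i * Complex.exp (-(zlam i * s)) := by
  rw [LSeries.term_of_ne_zero (pp_pos i).ne', zco_eq hb, exp_zlam, Complex.cpow_neg,
    div_eq_mul_inv]

lemma support_sub (s : ℂ) : (Function.support fun m =>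
    LSeries.term (fun m => (cf (nm X) m : ℂ)) s m) ⊆ Set.range pp := by
  intro m hm
  by_contra hcon
  apply hm
  have h1 : ¬ ∃ p n : ℕ, p.Prime ∧ n ≠ 0 ∧ m = p ^ n := by
    rintro ⟨p, n, hp, hn, rfl⟩
    apply hcon
    refine ⟨(⟨p, hp⟩, n - 1), ?_⟩
    unfold pp
    simp only
    rw [Nat.sub_add_cancel (Nat.one_le_iff_ne_zero.2 hn)]
  have := cf_eq_zero X h1
  have h2 : cf (nm X) m = 0 := by
    rw [cf, tsum_empty]
  show LSeries.term (fun m => (cf (nm X) m : ℂ)) s m = 0
  rw [LSeries.term_def]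
  split_ifs with h
  · rfl
  · rw [h2]
    simp

/-- The Dirichlet series `log ζ` over the prime powers. -/
theorem lz_eq (hb : Bounded X C k) (s : ℂ) :
    lz X s = ∑' i, zco X i * Complex.exp (-(zlam i * s)) := by
  unfold lz LSeries
  rw [← pp_injective.tsum_eq (support_sub s)]
  exact tsum_congr fun i => term_eq hb s i

/-- the data for the zeta function -/
theorem half_zeta (hb : Bounded X C k) (f : X ⟶ Spec (CommRingCat.of ℤ)) [LocallyOfFiniteType f]
    {F : ℂ → ℂ} {σ₀ A : ℝ} (hm : ∀ s : ℂ, σ₀ ≤ s.re → MeromorphicAt F s)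
    (he : ∀ s : ℂ, A < s.re → F s = zeta X s) :
    DS.Half zlam (zco X) σ₀ (max ((k : ℝ) + 1) A) F := by
  refine ⟨zlam_nonneg, fun σ hσ => ?_, hm, fun s hs => ?_⟩
  · have h1 : LSeriesSummable (fun m => (cf (nm X) m : ℂ)) (σ : ℂ) :=
      lz_summable hb (by
        rw [Complex.ofReal_re]
        exact (le_max_left _ _).trans_lt hσ)
    have h2 := (Summable.comp_injective h1 pp_injective).norm
    refine h2.congr fun i => ?_
    simp only [Function.comp_apply]
    rw [term_eq hb, norm_mul, Complex.norm_exp]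
    congr 2
    simp
  · rw [he s ((le_max_right _ _).trans_lt hs), zeta_eq hb f ((le_max_left _ _).trans_lt hs),
      lz_eq hb]

end Pool.Agent.U745.SC
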