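import Pool.Agent.U745.SC.Norm
import Pool.Agent.R409.RA.Mean

/-!
# Tate's conjecture over finitely generated fields as an asymptotic law for traces of Frobenius

Let `g : X → Y` be a smooth projective morphism of schemes of finite type over `ℤ`, `D = dim Y`, and
`Φ₁(s) = ∏_y ∏_j (1 - α_{y,j} q_y^{-s})⁻¹` the Euler product over all closed points `y` of `Y`, where the
`α_{y,j}`, of absolute value `q_y^{1/2}`, are the eigenvalues of Frobenius on the first cohomology of the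
fibre of `g` over `y`.  Tate's conjecture says that the order of `Φ₁` at `s = D` is the rank of
`Pic⁰(K)`, `K` the function field of `Y`, for the generic fibre.  The point `s = D` is outside of the
region `Re s > D + 1/2` of absolute convergence.  For a real number `τ` put, with `ω = 1 + iτ`, `x > 1`,

`W_τ(x) = ∑_y ∑_{k ≥ 1} t_{y,k} / (k q_y^{k D} Γ(1 + ω k log q_y / log x))`, `t_{y,k} = ∑_j α_{y,j}^k`,

where `t_{y,k}` is the trace of the `k`-th power of Frobenius, an integer.  Put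
`κ = ∫_0^∞ (e^{-t} - 1 / Γ(1 + t)) dt / t`.  Suppose that `Φ₁(s)` has a meromorphic continuation `F` to
`Re s ≥ D`.  Nothing is assumed on its zeros and poles, and no functional equation.  We prove:

* the series for `W_τ(x)` converges absolutely;
* for all `τ`, except for finitely many in every bounded interval, `F` has no zeros and poles on the
  ray `D + ω y`, `y > 0`, and then `exp (W_τ(x)) (log x / (ω e^κ))^r = ℓ + O(1 / log x)`, where
  `ℓ (s - D)^r` is the leading term of `F` at `s = D`;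
* for the other `τ` one has `W_τ(x) ~ - k ∫_0^∞ (x^{y u} - 1) du / (u Γ(1 + u))`, `D + ω y` being the
  last zero or pole on the ray and `k` its order, and `|Re W_τ(x)| ≥ exp (x^c)` for all `c < y` and
  large `x`;
* for every integer `ρ` the following are equivalent: (a) the order of `F` at `s = D` is `ρ`; (b) for one
  `τ` and one sequence `x → ∞` one has `Re W_τ(x) / log log x → - ρ`; (c) for all free `τ` one has
  `Re W_τ(x) = - ρ log log x + O(1)`.

For `ρ = rank Pic⁰(K)` the statement (a) is Tate's conjecture.  So the conjecture of Tate is equivalent to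
a single limit for traces of Frobenius, which generalises the formula of Nagao for the rank of an
elliptic curve over `ℚ(T)`; and a wrong limit along a single sequence refutes it.
-/

set_option autoImplicit false

namespace Pool.Agent.Results.MP_9faec4_nt.FrobeniusTraceForm

open CategoryTheory AlgebraicGeometry Filter Topology

section defs

variable {X Y : Scheme.{0}}

/-- The closed points of `Y`. -/
abbrev Pts (Y : Scheme.{0}) : Type := {y : Y // IsClosed ({y} : Set Y)}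

/-- `q_y`, the number of elements of the residue field of `y`. -/
noncomputable def q (Y : Scheme.{0}) (y : Pts Y) : ℕ := Nat.card (Y.residueField y.1)

/-- The number of the points with coordinates in the finite field `κ` of the fibre of `g` over a point
`P` of `Y` with coordinates in `κ`. -/
noncomputable def fibre (g : X ⟶ Y) {κ : Type} [Field κ] (P : Spec (CommRingCat.of κ) ⟶ Y) : ℕ :=
  Nat.card {Q : Spec (CommRingCat.of κ) ⟶ X // Q ≫ g = P}

/-- `α_1, …, α_N` are the eigenvalues of the geometric Frobenius on the first cohomology of the fibre of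
`g` over `y`, of dimension `d`: there are finite multisets `β_k` of complex numbers of absolute value
`q_y^{k/2}`, `k = 0, …, 2d`, with `β_1 = {α_1, …, α_N}`, such that for every finite extension `κ` of the
residue field of `y`, of degree `e`, the number of the points of the fibre with coordinates in `κ` is
`∑ (-1)^k ∑_{z ∈ β_k} z^e`.  By the theorem of Deligne such `β_k` exist if `g` is smooth and
projective; for `k ≤ 2d` they are unique. -/
def IsFrobenius (g : X ⟶ Y) (d : ℕ) (y : Pts Y) {N : ℕ} (α : Fin N → ℂ) : Prop :=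
  ∃ β : ℕ → Multiset ℂ, β 1 = Finset.univ.val.map α ∧
    (∀ k, ∀ z ∈ β k, ‖z‖ = (q Y y : ℝ) ^ ((k : ℝ) / 2)) ∧
    ∀ (κ : Type) [Field κ] [Finite κ] (P : Spec (CommRingCat.of κ) ⟶ Y) (e : ℕ),
      Set.range P = {y.1} → Nat.card κ = q Y y ^ e →
      (fibre g P : ℂ) =
        ∑ k ∈ Finset.range (2 * d + 1), (-1 : ℂ) ^ k * ((β k).map (fun z => z ^ e)).sum

/-- `Φ₁(s)`, the Euler product over all closed points of `Y`. -/
noncomputable def Phi {N : ℕ} (α : Pts Y → Fin N → ℂ) (s : ℂ) : ℂ :=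
  ∏' y : Pts Y, ∏ j, (1 - α y j * (q Y y : ℂ) ^ (-s))⁻¹

/-- `F` is meromorphic at all points of the half-plane `Re s ≥ D`, and it is `Φ₁(s)` for large
`Re s`. -/
def IsContinuation {N : ℕ} (D : ℕ) (α : Pts Y → Fin N → ℂ) (F : ℂ → ℂ) : Prop :=
  (∀ s : ℂ, (D : ℝ) ≤ s.re → MeromorphicAt F s) ∧ ∃ A : ℝ, ∀ s : ℂ, A < s.re → F s = Phi α s

/-- The term of `W_τ(x)` at the point `y` and the number `k = j + 1`:
`t_{y,k} / (k q_y^{k D} Γ(1 + ω k log q_y / log x))`. -/
noncomputable def term {N : ℕ} (D : ℕ) (α : Pts Y → Fin N → ℂ) (τ x : ℝ) (p : Pts Y × ℕ) : ℂ :=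
  (∑ j, α p.1 j ^ (p.2 + 1)) / ((p.2 + 1) * ((q Y p.1 : ℂ) ^ D) ^ (p.2 + 1) *
    Complex.Gamma (1 + (1 + τ * Complex.I) *
      (((p.2 + 1) * Real.log (q Y p.1) : ℝ) / Real.log x)))

/-- `W_τ(x)`. -/
noncomputable def W {N : ℕ} (D : ℕ) (α : Pts Y → Fin N → ℂ) (τ x : ℝ) : ℂ :=
  ∑' p : Pts Y × ℕ, term D α τ x p

/-- The point `D + (1 + iτ) y`. -/
noncomputable def ray (D : ℕ) (τ y : ℝ) : ℂ := D + (1 + τ * Complex.I) * y

/-- `F` has a zero or a pole on the ray `{D + (1 + iτ) y : y > 0}`. -/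
def Blocked (D : ℕ) (F : ℂ → ℂ) (τ : ℝ) : Prop :=
  ∃ y : ℝ, 0 < y ∧ meromorphicOrderAt F (ray D τ y) ≠ 0

/-- The leading term of `F` at `s = D` is `ℓ (s - D)^r`: the function `(s - D)^{-r} F(s)` tends to `ℓ`
for `s → D`. -/
def LeadingTerm (D : ℕ) (F : ℂ → ℂ) (r : ℤ) (ℓ : ℂ) : Prop :=
  Tendsto (fun s : ℂ => (s - D) ^ (-r) * F s) (𝓝[≠] (D : ℂ)) (𝓝 ℓ)

end defs

/-- `κ = ∫_0^∞ (e^{-t} - 1/Γ(1 + t)) dt/t`. -/
noncomputable def kappa : ℝ :=
  ∫ t in Set.Ioi (0 : ℝ), (Real.exp (-t) - (Real.Gamma (1 + t))⁻¹) / t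

/-- `∫_0^∞ (e^{yu} - 1) / (u Γ(1 + u)) du`. -/
noncomputable def grow (y : ℝ) : ℝ :=
  ∫ u in Set.Ioi (0 : ℝ), (Real.exp (y * u) - 1) / (u * Real.Gamma (1 + u))

/-- For all `τ` such that `F` has no zeros and poles on the ray,
`exp (W_τ(x)) (log x / (ω e^κ))^r = ℓ + O(1 / log x)`. -/
def FreeLaw (D : ℕ) (F : ℂ → ℂ) (V : ℝ → ℝ → ℂ) (r : ℤ) (ℓ : ℂ) : Prop :=
  ∀ τ : ℝ, ¬ Blocked D F τ → ∃ C : ℝ, ∀ᶠ x : ℝ in atTop,
    ‖Complex.exp (V τ x) * (Real.log x / ((1 + τ * Complex.I) * Real.exp kappa)) ^ r - ℓ‖ ≤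
      C / Real.log x

/-- The conclusion for the other directions: `D + (1 + iτ) y` being the last zero or pole on the ray, of
order `k`, `W_τ(x) ~ - k ∫_0^∞ (x^{y u} - 1) du / (u Γ(1 + u))`. -/
def BlockedLaw (D : ℕ) (F : ℂ → ℂ) (V : ℝ → ℝ → ℂ) : Prop :=
  ∀ τ : ℝ, Blocked D F τ → ∃ (y : ℝ) (k : ℤ), 0 < y ∧ k ≠ 0 ∧
    meromorphicOrderAt F (ray D τ y) = k ∧
    (∀ z : ℝ, y < z → meromorphicOrderAt F (ray D τ z) = 0) ∧
    Tendsto (fun x : ℝ => V τ x / grow (y * Real.log x)) atTop (𝓝 (-k)) ∧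
    ∀ c < y, ∀ᶠ x : ℝ in atTop, Real.exp (x ^ c) ≤ |(V τ x).re|

section bridge

variable {X Y : Scheme.{0}} {g : X ⟶ Y} {N d D : ℕ} {α : Pts Y → Fin N → ℂ} {F : ℂ → ℂ}

theorem norm_le (hα : ∀ y, IsFrobenius g d y (α y)) (y : Pts Y) (j : Fin N) :
    ‖α y j‖ ≤ (U745.SC.qc Y y : ℝ) ^ (1 / 2 : ℝ) := by
  obtain ⟨β, h1, h2, -⟩ := hα y
  have h3 : α y j ∈ β 1 := by
    rw [h1, Multiset.mem_map]
    exact ⟨j, Finset.mem_univ_val j, rfl⟩
  have h4 := h2 1 _ h3
  rw [Nat.cast_one] at h4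
  exact h4.le

theorem ser (f : Y ⟶ Spec (CommRingCat.of ℤ)) [LocallyOfFiniteType f] [QuasiCompact f]
    (hα : ∀ y, IsFrobenius g d y (α y)) (hF : IsContinuation D α F) :
    ∃ A : ℝ, U745.DS.GB.Norms (U745.SC.qc Y) A ∧ U745.DS.Ser (U745.DS.GB.plam (U745.SC.qc Y))
      (U745.DS.sh (U745.DS.GB.plam (U745.SC.qc Y)) (U745.DS.GB.pco α) (D : ℂ))
      (max ((1 / 2 : ℝ) + A - (D : ℂ).re) 0) (fun s => F ((D : ℂ) + s)) := by
  obtain ⟨B, hB⟩ := U745.SC.norms f
  obtain ⟨A, hA⟩ := hF.2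
  have hB' := hB.mono (le_max_left B A)
  refine ⟨max B A, hB', ?_⟩
  refine (U745.DS.GB.half_nf (σ₀ := (D : ℝ)) hB' (norm_le hα) hF.1 fun s hs => ?_).at (by simp)
  refine hA s ?_
  have := le_max_right B A
  linarith

theorem term_eq {A : ℝ} (hq : U745.DS.GB.Norms (U745.SC.qc Y) A) (D : ℕ) (α : Pts Y → Fin N → ℂ)
    (τ x : ℝ) (p : Pts Y × ℕ) : term D α τ x p =
    U745.DS.sh (U745.DS.GB.plam (U745.SC.qc Y)) (U745.DS.GB.pco α) (D : ℂ) p *
      (Complex.Gamma (1 + W524.RY.dir τ * (U745.DS.GB.plam (U745.SC.qc Y) p / Real.log x)))⁻¹ := by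
  unfold term U745.DS.sh
  have e : ∀ S a b g : ℂ, S / (a * b * g) = S / a * b⁻¹ * g⁻¹ := by
    intro S a b g
    rw [div_eq_mul_inv, mul_inv, mul_inv, div_eq_mul_inv]
    ring
  rw [U745.DS.GB.exp_plam hq, Complex.cpow_neg, Complex.cpow_natCast, inv_pow, e]
  rfl

theorem W_eq {A : ℝ} (hq : U745.DS.GB.Norms (U745.SC.qc Y) A) (D : ℕ) (α : Pts Y → Fin N → ℂ)
    (τ x : ℝ) : W D α τ x = U745.DS.WW (U745.DS.GB.plam (U745.SC.qc Y))
      (U745.DS.sh (U745.DS.GB.plam (U745.SC.qc Y)) (U745.DS.GB.pco α) (D : ℂ)) τ x := by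
  unfold W U745.DS.WW U745.DS.VV
  exact tsum_congr fun p => term_eq hq D α τ x p

theorem blocked_iff {τ : ℝ} : ¬ Blocked D F τ ↔ U745.DS.Clear (fun s => F ((D : ℂ) + s)) τ := by
  rw [U745.DS.clear_iff]
  unfold Blocked
  push Not
  rfl

theorem lead_iff (r : ℤ) (ℓ : ℂ) : LeadingTerm D F r ℓ ↔
    U745.LT.Leading (fun s => F ((D : ℂ) + s)) 0 r ℓ := by
  rw [U745.DS.leading_shift]
  rfl

end bridge

/-- **Tate's conjecture as a law for traces of Frobenius.**  Let `Y` be a scheme of finite type over `ℤ`,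
`g : X → Y` a morphism, `α_{y,1}, …, α_{y,N}` the eigenvalues of Frobenius on the first cohomology of the
fibres over the closed points `y` of `Y`, `D` a natural number, and `F` a meromorphic continuation of
`Φ₁` to `Re s ≥ D`.  Then

1. the series `W_τ(x)` converges absolutely for all `x > 1`;
2. only finitely many `τ` in every bounded interval are blocked;
3. `F` has a leading term `ℓ (s - D)^r` at `s = D`, `r` an integer, `ℓ ≠ 0`; for the `τ` that are not
  blocked `exp (W_τ(x)) (log x / (ω e^κ))^r = ℓ + O(1 / log x)`;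
4. for the blocked `τ` one has `W_τ(x) ~ - k ∫_0^∞ (x^{y u} - 1) du / (u Γ(1 + u))`;
5. for every integer `ρ` the following are equivalent: the order of `F` at `s = D` is `ρ`; for one `τ` and
  one sequence `x → ∞` one has `Re W_τ(x) / log log x → - ρ`; for all `τ` that are not blocked
  `Re W_τ(x) = - ρ log log x + O(1)`. -/
theorem result (X Y : Scheme.{0}) (f : Y ⟶ Spec (CommRingCat.of ℤ)) [LocallyOfFiniteType f]
    [QuasiCompact f] (g : X ⟶ Y) (N d D : ℕ) (α : Pts Y → Fin N → ℂ)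
    (hα : ∀ y, IsFrobenius g d y (α y)) (F : ℂ → ℂ) (hF : IsContinuation D α F) :
    (∀ τ x : ℝ, 1 < x → Summable fun p => ‖term D α τ x p‖) ∧
    (∀ b : ℝ, {τ : ℝ | |τ| ≤ b ∧ Blocked D F τ}.Finite) ∧
    (∃ (r : ℤ) (ℓ : ℂ), ℓ ≠ 0 ∧ meromorphicOrderAt F (D : ℂ) = r ∧ LeadingTerm D F r ℓ ∧
      FreeLaw D F (W D α) r ℓ) ∧
    BlockedLaw D F (W D α) ∧
    ∀ ρ : ℤ, List.TFAE [
      meromorphicOrderAt F (D : ℂ) = ρ,
      ∃ (τ : ℝ) (x : ℕ → ℝ), Tendsto x atTop atTop ∧
        Tendsto (fun n => (W D α τ (x n)).re / Real.log (Real.log (x n))) atTop (𝓝 (-ρ : ℝ)),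
      ∀ τ : ℝ, ¬ Blocked D F τ → ∃ C : ℝ, ∀ᶠ x : ℝ in atTop,
        |(W D α τ x).re + ρ * Real.log (Real.log x)| ≤ C] := by
  obtain ⟨A, hq, hS⟩ := ser f hα hF
  have hcount : Countable (Pts Y) := hq.countable
  have hW : ∀ τ : ℝ, W D α τ = U745.DS.WW (U745.DS.GB.plam (U745.SC.qc Y))
      (U745.DS.sh (U745.DS.GB.plam (U745.SC.qc Y)) (U745.DS.GB.pco α) (D : ℂ)) τ := fun τ =>
    funext fun x => W_eq hq D α τ x
  obtain ⟨r, ℓ, hℓ, hl⟩ := U745.DS.exists_leading hS
  have hmF : MeromorphicAt F (D : ℂ) := hF.1 _ (by simp)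
  have hord : meromorphicOrderAt F (D : ℂ) = r := by
    have h1 := ((U745.LT.leading_iff (hS.mer 0 (by simp)) hℓ).1 hl).1
    rwa [U745.DS.order_shift, add_zero] at h1
  refine ⟨fun τ x hx => ?_, fun b => ?_, ⟨r, ℓ, hℓ, hord, (lead_iff r ℓ).2 hl, fun τ hτ => ?_⟩,
    fun τ hτ => ?_, fun ρ => ?_⟩
  · refine (U745.DS.VV_summable hS τ (Real.log_pos hx)).congr fun p => ?_
    rw [term_eq hq]
  · refine (hS.blocked_finite b).subset ?_
    rintro τ ⟨h1, h2⟩
    have h3 : ¬ U745.DS.Clear (fun s => F ((D : ℂ) + s)) τ := fun h => (blocked_iff.2 h) h2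
    unfold U745.DS.Clear at h3
    push Not at h3
    exact ⟨h1, h3⟩
  · have h1 := U745.DS.law_of_leading hS hℓ hl (blocked_iff.1 hτ)
    simp only [hW]
    exact h1
  · obtain ⟨y, hy, hyz⟩ := hτ
    obtain ⟨x₀, h0, h01, hnz, hz⟩ := hS.exists_last τ
    have hray : ∀ y : ℝ, meromorphicOrderAt (fun s => F ((D : ℂ) + s)) (U745.DS.rp τ y) =
        meromorphicOrderAt F (ray D τ y) := by
      intro y
      rw [U745.DS.order_shift]
      rfl
    have hx0 : 0 < x₀ := by
      by_contra hcon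
      apply hyz
      rw [← hray]
      exact hnz y (by linarith)
    have hz' : meromorphicOrderAt (fun s => F ((D : ℂ) + s)) (U745.DS.rp τ x₀) ≠ 0 := by
      rcases hz with h2 | h2
      · exact absurd h2 hx0.ne'
      · exact h2
    obtain ⟨k, hk⟩ := WithTop.ne_top_iff_exists.1 (hS.ne_top (s := U745.DS.rp τ x₀) (by
      rw [U745.DS.rp_re]
      linarith))
    have hk0 : k ≠ 0 := by
      rintro rfl
      exact hz' (by rw [← hk]; rfl)
    obtain ⟨g1, g2⟩ := U745.DS.blocked hS τ hx0 h01 hk.symm hk0 hnz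
    refine ⟨x₀, k, hx0, hk0, by rw [← hray]; exact hk.symm, fun z hz => ?_, ?_, fun c hc => ?_⟩
    · rw [← hray]
      exact hnz z hz
    · rw [hW]
      exact g1
    · rw [hW]
      filter_upwards [g2 c hc] with x hx
      have hs : |(-(Int.sign k : ℝ))| ≤ 1 := by
        rcases lt_trichotomy k 0 with h6 | h6 | h6
        · rw [Int.sign_eq_neg_one_of_neg h6]; norm_num
        · rw [h6]; simp
        · rw [Int.sign_eq_one_of_pos h6]; norm_num
      refine hx.trans ((le_abs_self _).trans ?_)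
      rw [abs_mul]
      exact mul_le_of_le_one_left (abs_nonneg _) hs
  · have h1 := U745.DS.order_tfae hS ρ
    have e1 : meromorphicOrderAt (fun s => F ((D : ℂ) + s)) 0 = ρ ↔
        meromorphicOrderAt F (D : ℂ) = ρ := by
      rw [U745.DS.order_shift, add_zero]
    simp only [hW, blocked_iff]
    rw [← e1]
    exact h1

end Pool.Agent.Results.MP_9faec4_nt.FrobeniusTraceForm
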