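import Pool.Agent.U745.DS.EPB
import Pool.Agent.U745.DS.Rank
import Pool.Agent.Q193.Zeta.Dir

/-!
# The closed points of a scheme of finite type over the integers
-/

set_option autoImplicit false

namespace Pool.Agent.U745.SC

open CategoryTheory AlgebraicGeometry Pool.Agent.Q193.Zeta

/-- the closed points -/
abbrev Cl (Y : Scheme.{0}) : Type := {y : Y // IsClosed ({y} : Set Y)}

/-- the number of elements of the residue field -/
noncomputable def qc (Y : Scheme.{0}) (y : Cl Y) : ℕ := Nat.card (Y.residueField y.1)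

variable {Y : Scheme.{0}}

theorem norms (f : Y ⟶ Spec (CommRingCat.of ℤ)) [LocallyOfFiniteType f] [QuasiCompact f] :
    ∃ B : ℝ, DS.GB.Norms (qc Y) B := by
  obtain ⟨C, k, hb⟩ := bounded f
  have h2 : ∀ y : Cl Y, 2 ≤ qc Y y := fun y => by
    have h1 := one_lt_nm Y ⟨y.1, finite_of_closed f y.2⟩
    exact h1
  refine ⟨(k : ℝ) + 1, by linarith [Nat.cast_nonneg (α := ℝ) k], h2, fun σ hσ => ?_⟩
  have h3 : Summable (tm (nm Y) (σ : ℂ)) :=
    summable_tm (one_lt_nm Y) (finite_fib' hb) (fun m _ => cf_le hb m) (by simpa using hσ)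
  have h4 : Function.Injective fun y : Cl Y => (((⟨y.1, finite_of_closed f y.2⟩ : FP Y), 0) :
      FP Y × ℕ) := by
    intro y z h
    have := congrArg (fun p : FP Y × ℕ => p.1.1) h
    exact Subtype.ext this
  have h5 := (h3.comp_injective h4).norm
  refine h5.congr fun y => ?_
  simp only [Function.comp_apply, tm, zero_add, pow_one, Nat.cast_zero, div_one]
  have h6 : 0 < nm Y ⟨y.1, finite_of_closed f y.2⟩ := by
    have := one_lt_nm Y ⟨y.1, finite_of_closed f y.2⟩
    omega
  rw [Complex.norm_natCast_cpow_of_pos h6]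
  simp only [Complex.neg_re, Complex.ofReal_re]
  rfl

end Pool.Agent.U745.SC
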