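import Pool.Agent.U745.SC.Count

/-!
# The points of the schemes of bilinear equations
-/

set_option autoImplicit false

namespace Pool.Agent.U745.SC

open CategoryTheory AlgebraicGeometry MvPolynomial

variable {a b c : ℕ} (E : Fin c → Finset (Fin a × Fin b))

/-- the equation with the index `l` -/
noncomputable abbrev eqn (l : Fin c) : MvPolynomial (Fin a ⊕ Fin b) ℤ :=
  ∑ e ∈ E l, (X (Sum.inl e.1) * X (Sum.inr e.2) : MvPolynomial (Fin a ⊕ Fin b) ℤ)

/-- the ring of the system -/
abbrev Rg : Type :=
  MvPolynomial (Fin a ⊕ Fin b) ℤ ⧸ Ideal.span (Set.range fun l => eqn E l)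

/-- the solutions of the system in the field `K` -/
abbrev Sol (K : Type) [Field K] : Type :=
  {z : (Fin a → K) × (Fin b → K) // ∀ l, ∑ e ∈ E l, z.1 e.1 * z.2 e.2 = 0}

/-- the homomorphism of a solution -/
noncomputable def toHom {K : Type} [Field K] (z : Sol E K) : Rg E →+* K :=
  Ideal.Quotient.lift (Ideal.span (Set.range fun l => eqn E l))
    (eval₂Hom (Int.castRingHom K) (Sum.elim z.1.1 z.1.2)) (by
      intro x hx
      have h1 : Ideal.span (Set.range fun l => eqn E l) ≤
          RingHom.ker (eval₂Hom (Int.castRingHom K) (Sum.elim z.1.1 z.1.2)) := by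
        rw [Ideal.span_le]
        rintro _ ⟨l, rfl⟩
        rw [SetLike.mem_coe, RingHom.mem_ker]
        simp only [eqn, map_sum, map_mul, coe_eval₂Hom, eval₂_X, Sum.elim_inl, Sum.elim_inr]
        exact z.2 l
      exact h1 hx)

lemma toHom_mk {K : Type} [Field K] (z : Sol E K) (P : MvPolynomial (Fin a ⊕ Fin b) ℤ) :
    toHom E z (Ideal.Quotient.mk _ P) =
      eval₂Hom (Int.castRingHom K) (Sum.elim z.1.1 z.1.2) P := rfl

/-- homomorphisms and solutions -/
noncomputable def homSol (K : Type) [Field K] : (Rg E →+* K) ≃ Sol E K where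
  toFun φ := ⟨(fun i => φ (Ideal.Quotient.mk _ (X (Sum.inl i))),
      fun j => φ (Ideal.Quotient.mk _ (X (Sum.inr j)))), by
    intro l
    have h1 : (Ideal.Quotient.mk (Ideal.span (Set.range fun l => eqn E l))) (eqn E l) = 0 :=
      Ideal.Quotient.eq_zero_iff_mem.2 (Ideal.subset_span ⟨l, rfl⟩)
    have h2 := congrArg φ h1
    simp only [eqn, map_sum, map_mul, map_zero] at h2
    exact h2⟩
  invFun z := toHom E z
  left_inv φ := by
    refine Ideal.Quotient.ringHom_ext (MvPolynomial.ringHom_ext' ?_ ?_)
    · exact RingHom.ext_int _ _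
    · rintro (i | j)
      · simp only [RingHom.coe_comp, Function.comp_apply]
        rw [toHom_mk]
        simp
      · simp only [RingHom.coe_comp, Function.comp_apply]
        rw [toHom_mk]
        simp
  right_inv z := by
    refine Subtype.ext (Prod.ext (funext fun i => ?_) (funext fun j => ?_))
    · show toHom E z (Ideal.Quotient.mk _ (X (Sum.inl i))) = z.1.1 i
      rw [toHom_mk]
      simp
    · show toHom E z (Ideal.Quotient.mk _ (X (Sum.inr j))) = z.1.2 j
      rw [toHom_mk]
      simp

/-- The number of the points is the number of the solutions. -/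
theorem points_sys (i : Nat.Primes × ℕ) : points (Spec (CommRingCat.of (Rg E))) i =
    haveI : Fact (i.1 : ℕ).Prime := ⟨i.1.2⟩
    Nat.card (Sol E (GaloisField i.1 (i.2 + 1))) := by
  have : Fact (i.1 : ℕ).Prime := ⟨i.1.2⟩
  unfold points
  refine Nat.card_congr ((Spec.homEquiv).trans ?_)
  exact { toFun := fun f => homSol E _ f.hom
          invFun := fun z => CommRingCat.ofHom ((homSol E _).symm z)
          left_inv := fun f => by
            simp
          right_inv := fun z => by
            simp }

end Pool.Agent.U745.SC
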